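import Pool.Agent.MTO.Stmts
import Pool.Agent.Helper97_MTA.LadA

/-! MTO, module MAE: the Hodge side at algebraic points, even weight. -/

set_option autoImplicit false

namespace Pool.Agent.MTO.H25

open Matrix Pool.Agent.MT100 Pool.Agent.MT100G Pool.Agent.MT100A Pool.Agent.MT100D
  Pool.Agent.Helper78_MT Pool.Agent.Helper46_MT Pool.Agent.MTF Pool.Agent.MTF.H98
  Pool.Agent.MT100GO Pool.Agent.MTL Pool.Agent.MT100A.H78

universe u

/-- the determinant of the exponential of a nilpotent matrix -/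
theorem det_ue {d : Type} [Fintype d] [DecidableEq d] {X : Matrix d d ℂ} (hX : IsNilpotent X)
    (s : ℂ) : (ue X s).det = 1 := by
  refine MT100A.H97.det_uni (M := Set.univ) (MT100A.H97.uni_of_nilP ⟨hX, fun t => ?_⟩ s)
  have h1 := congrArg Matrix.det (ue_inv hX t)
  rw [det_mul, det_one] at h1
  exact ⟨IsUnit.of_mul_eq_one _ h1, fun f hf => hf _ (Set.mem_univ _)⟩

/-- **MAE** -/
theorem mae (hcod : MTN.H74.CodPStmt) (hcde : CdeStmt) (hhle : HleStmt) (hgso : GsoStmt.{u})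
    (hsne : SneStmt) (hlve : LveStmt) : MaeStmt.{u} := by
  intro d _ _ F w lev hw P hP δ c hc κ hκ h3 hlt m' A
  obtain ⟨m, hm⟩ : ∃ m, m = δ + (if F.N = 0 then 0 else 1) := ⟨_, rfl⟩
  rw [← hm] at hlt
  obtain ⟨n1, h1⟩ := hlve d F lev P hP
  rcases Nat.eq_zero_or_pos w with rfl | hw1
  · refine ⟨n1, fun x _ hn E V hV hfil _ K _ _ => ?_⟩
    exfalso
    have h2 := h1 x hn 0 E V hV hfil 0 le_rfl
    have hk := hκ 0 le_rfl
    rw [← h2] at hk
    have hV0 : V 0 = ⊤ := by
      rw [eq_top_iff, ← hV.span]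
      refine iSup_le fun p => ?_
      rcases Nat.eq_zero_or_pos p with rfl | hp
      · exact le_rfl
      · rw [hV.top p hp]
        exact bot_le
    have h4 : (V 0 ⊔ V (0 - 0) : Submodule ℂ (d → ℂ)) = ⊤ := by
      rw [hV0, top_sup_eq]
    rw [h4, finrank_top, Module.finrank_fintype_fun_eq_card] at hk
    omega
  · obtain ⟨n0, h0⟩ := hcod d F w lev hw1 P hP δ c hc m hm.ge m' A
    refine ⟨max n0 n1, fun x hx hn E V hV hfil hD K _ _ => ?_⟩
    have hn0 : n0 ≤ ‖x‖ := le_trans (le_max_left _ _) hn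
    have hn1 : n1 ≤ ‖x‖ := le_trans (le_max_right _ _) hn
    have hE := det_ne hV
    have hEs : Eᵀ = E := by
      have := hV.symm
      rwa [hw.neg_one_pow, one_smul] at this
    have hEC : (E.map (algebraMap ℚ ℂ))ᵀ = E.map (algebraMap ℚ ℂ) := by
      rw [← transpose_map, hEs]
    refine hgso d w E V hw hw1 (by omega) hV (fun I hG hI X hX => ?_) K
    have hL := hhle d w E V hw hw1 hV I hG hI
    have hfr : ∀ p ≤ w, Module.finrank ℂ ↥(V p ⊔ V (w - p)) ≤ κ := by
      intro p hp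
      rw [h1 x hn1 w E V hV hfil p hp]
      exact hκ p hp
    have hdep : Dep (E.map (algebraMap ℚ ℂ)) V (Ul I E) m := by
      refine hsne d (E.map (algebraMap ℚ ℂ)) hEC (det_map hE) h3 (Ul I E ⊔ F0 V) m ?_
      intro Y hY
      refine h0 x hx hn0 E V hV hfil I hG hI Y (fun j => ?_)
      refine ⟨(hY j).2, fun s => hD _ ?_ (det_ue (hY j).2 s)⟩
      exact ue_form (hY j).1 (hY j).2 s
    exact hcde d w (E.map (algebraMap ℚ ℂ)) V (Ul I E) hL κ m hfr hlt hdep hX

end Pool.Agent.MTO.H25
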